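import Mathlib

/-!
# From short intervals to dyadic intervals, and to all integers up to `N`
-/

namespace Pool.Agent.Work.MP_86ed72_nt.LS

open Finset

theorem cover (E : ℕ → Prop) (N a J : ℕ) (K : ℝ) (hN : 1 ≤ N) (hJ : N ≤ J * (a + 1))
    (h : ∀ N' : ℕ, N ≤ N' → N' < 2 * N → ∀ S : Finset ℕ,
      (∀ n ∈ S, (N' ≤ n ∧ n ≤ N' + a) ∧ E n) → (S.card : ℝ) ≤ K)
    (S : Finset ℕ) (hS : ∀ n ∈ S, (N ≤ n ∧ n < 2 * N) ∧ E n) : (S.card : ℝ) ≤ J * K := by
  classical
  have hK : 0 ≤ K := by
    have := h N le_rfl (by omega) ∅ (by simp)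
    simpa using this
  have h1 : S.card = ∑ j ∈ range J, (S.filter (fun n => (n - N) / (a + 1) = j)).card := by
    apply Finset.card_eq_sum_card_fiberwise
    intro n hn
    rw [Finset.mem_coe] at hn
    rw [Finset.mem_coe, Finset.mem_range, Nat.div_lt_iff_lt_mul (by omega)]
    have := (hS n hn).1
    omega
  rw [h1]
  push_cast
  calc ∑ j ∈ range J, ((S.filter (fun n => (n - N) / (a + 1) = j)).card : ℝ)
      ≤ ∑ j ∈ range J, K := by
        apply Finset.sum_le_sum
        intro j _
        rcases Finset.eq_empty_or_nonempty (S.filter (fun n => (n - N) / (a + 1) = j)) with h2 | h2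
        · rw [h2]; simpa using hK
        · have hmem : ∀ n ∈ S.filter (fun n => (n - N) / (a + 1) = j),
              ((N + j * (a + 1) ≤ n ∧ n ≤ N + j * (a + 1) + a) ∧ E n) := by
            intro n hn
            rw [Finset.mem_filter] at hn
            have h3 := (hS n hn.1).1
            have h4 : (n - N) / (a + 1) = j := hn.2
            have h5 := Nat.div_add_mod (n - N) (a + 1)
            have h6 : (n - N) % (a + 1) < a + 1 := Nat.mod_lt _ (by omega)
            rw [h4] at h5
            have h7 : (a + 1) * j = j * (a + 1) := Nat.mul_comm _ _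
            refine ⟨⟨by omega, by omega⟩, (hS n hn.1).2⟩
          obtain ⟨n, hn⟩ := h2
          have h3 := (hmem n hn).1
          have h4 := (hS n (Finset.mem_filter.mp hn).1).1
          exact h (N + j * (a + 1)) (by omega) (by omega) _ hmem
    _ = J * K := by rw [Finset.sum_const, Finset.card_range, nsmul_eq_mul]

/-- Dyadic intervals from short intervals of length `N / log N`. -/
theorem dyadic_log (E : ℕ → Prop) (c : ℝ) (hc : 0 ≤ c)
    (h : ∀ N a : ℕ, 64 ≤ N → a ≤ N → (a : ℝ) * Real.log (2 * N) ≤ N / 2 → ∀ S : Finset ℕ,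
      (∀ n ∈ S, (N ≤ n ∧ n ≤ N + a) ∧ E n) → (S.card : ℝ) ≤ c * Real.log N)
    (N : ℕ) (hN : 64 ≤ N) (S : Finset ℕ) (hS : ∀ n ∈ S, (N ≤ n ∧ n < 2 * N) ∧ E n) :
    (S.card : ℝ) ≤ 3.5 * c * Real.log N ^ 2 := by
  have hN64 : (64 : ℝ) ≤ N := by exact_mod_cast hN
  have hNpos : (0 : ℝ) < N := by linarith
  have hl2 := Real.log_two_gt_d9
  have hl4 : Real.log 4 = 2 * Real.log 2 := by
    rw [show (4 : ℝ) = 2 ^ 2 by norm_num, Real.log_pow]; push_cast; ring
  have hlogN : 6 * Real.log 2 ≤ Real.log N := by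
    have h1 : Real.log ((2 : ℝ) ^ 6) ≤ Real.log N :=
      Real.log_le_log (by norm_num) (by rw [show (2 : ℝ) ^ 6 = 64 by norm_num]; exact hN64)
    rw [Real.log_pow] at h1
    push_cast at h1
    exact h1
  set Λ := Real.log N with hΛ
  have e4 : Real.log (4 * N) = 2 * Real.log 2 + Λ := by
    rw [Real.log_mul (by norm_num) hNpos.ne', hl4]
  have hpos4 : 0 < 2 * Real.log (4 * N) := by rw [e4]; linarith
  set a := ⌊(N : ℝ) / (2 * Real.log (4 * N))⌋₊ with ha
  have ha1 : (a : ℝ) ≤ N / (2 * Real.log (4 * N)) := Nat.floor_le (by positivity)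
  have ha2 : (N : ℝ) / (2 * Real.log (4 * N)) < a + 1 := Nat.lt_floor_add_one _
  have haN : a ≤ N := by
    have : (a : ℝ) ≤ N := by
      refine ha1.trans ?_
      apply div_le_self hNpos.le
      rw [e4]; linarith
    exact_mod_cast this
  set J := N / (a + 1) + 1 with hJ
  have hJN : N ≤ J * (a + 1) := by
    have := Nat.lt_mul_div_succ N (show 0 < a + 1 by omega)
    rw [hJ, Nat.mul_comm]
    exact this.le
  have hcov := cover E N a J (c * Real.log (2 * N)) (by omega) hJN (by
    intro N' h1 h2 T hT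
    have h1' : (N : ℝ) ≤ N' := by exact_mod_cast h1
    have h2' : (N' : ℝ) ≤ 2 * N := by exact_mod_cast h2.le
    have h3 : Real.log (2 * N') ≤ Real.log (4 * N) :=
      Real.log_le_log (by linarith) (by linarith)
    have h4 := h N' a (by omega) (by omega) (by
      calc (a : ℝ) * Real.log (2 * N') ≤ a * Real.log (4 * N) :=
            mul_le_mul_of_nonneg_left h3 (Nat.cast_nonneg a)
        _ ≤ N / (2 * Real.log (4 * N)) * Real.log (4 * N) := by
            apply mul_le_mul_of_nonneg_right ha1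
            linarith
        _ = N / 2 := by
            have h0 : Real.log (4 * N) ≠ 0 := by
              intro h0; rw [h0] at hpos4; norm_num at hpos4
            generalize Real.log (4 * N) = t at h0
            field_simp
        _ ≤ N' / 2 := by linarith) T hT
    refine h4.trans ?_
    apply mul_le_mul_of_nonneg_left _ hc
    exact Real.log_le_log (by linarith) h2') S hS
  refine hcov.trans ?_
  have hJr : (J : ℝ) ≤ 2 * Real.log (4 * N) + 1 := by
    have h5 : ((N / (a + 1) : ℕ) : ℝ) ≤ (N : ℝ) / ((a + 1 : ℕ) : ℝ) := Nat.cast_div_le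
    push_cast at h5
    have h6 : (N : ℝ) / (a + 1) ≤ 2 * Real.log (4 * N) := by
      rw [div_le_iff₀ (by positivity)]
      rw [div_lt_iff₀ hpos4] at ha2
      linarith
    rw [hJ]
    push_cast
    linarith
  have e2 : Real.log (2 * N) = Real.log 2 + Λ := Real.log_mul (by norm_num) hNpos.ne'
  rw [e4] at hJr
  have h7 : (J : ℝ) ≤ 3 * Λ := by linarith
  have h8 : Real.log (2 * N) ≤ 7 / 6 * Λ := by rw [e2]; linarith
  have h9 : 0 ≤ Real.log (2 * N) := by rw [e2]; linarith
  calc (J : ℝ) * (c * Real.log (2 * N)) ≤ (3 * Λ) * (c * (7 / 6 * Λ)) := by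
        apply mul_le_mul h7 (mul_le_mul_of_nonneg_left h8 hc) (mul_nonneg hc h9) (by linarith)
    _ = 3.5 * c * Λ ^ 2 := by ring

/-- From dyadic intervals to all `n ≤ N`. -/
theorem cumulative (E : ℕ → Prop) (D : ℝ) (N : ℕ) (hN : 2 ≤ N) (hD : 1 ≤ D)
    (h : ∀ N' : ℕ, 2 ≤ N' → N' ≤ N → ∀ S : Finset ℕ,
      (∀ n ∈ S, (N' ≤ n ∧ n < 2 * N') ∧ E n) → (S.card : ℝ) ≤ D)
    (S : Finset ℕ) (hS : ∀ n ∈ S, n ≤ N ∧ E n) : (S.card : ℝ) ≤ 4.5 * D * Real.log N := by
  classical
  have hl2 := Real.log_two_gt_d9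
  have hl2' := Real.log_two_lt_d9
  have h1 : S.card = ∑ j ∈ range (Nat.log 2 N + 1), (S.filter (fun n => Nat.log 2 n = j)).card := by
    apply Finset.card_eq_sum_card_fiberwise
    intro n hn
    rw [Finset.mem_coe] at hn
    rw [Finset.mem_coe, Finset.mem_range]
    have := Nat.log_mono_right (b := 2) (hS n hn).1
    omega
  have hblock : ∀ j ∈ range (Nat.log 2 N), ((S.filter (fun n => Nat.log 2 n = j + 1)).card : ℝ) ≤ D := by
    intro j hj
    rw [Finset.mem_range] at hj
    apply h (2 ^ (j + 1))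
    · calc 2 = 2 ^ 1 := by norm_num
        _ ≤ 2 ^ (j + 1) := Nat.pow_le_pow_right (by norm_num) (by omega)
    · calc 2 ^ (j + 1) ≤ 2 ^ Nat.log 2 N := Nat.pow_le_pow_right (by norm_num) (by omega)
        _ ≤ N := Nat.pow_log_le_self 2 (by omega)
    · intro n hn
      rw [Finset.mem_filter] at hn
      have h2 : n ≠ 0 := by
        intro h0
        rw [h0] at hn
        simp at hn
      refine ⟨⟨?_, ?_⟩, (hS n hn.1).2⟩
      · rw [← hn.2]
        exact Nat.pow_log_le_self 2 h2
      · have h3 := Nat.lt_pow_succ_log_self (b := 2) (by norm_num) n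
        rw [hn.2, pow_succ] at h3
        linarith
  have h0 : ((S.filter (fun n => Nat.log 2 n = 0)).card : ℝ) ≤ 2 := by
    have h2 : S.filter (fun n => Nat.log 2 n = 0) ⊆ range 2 := by
      intro n hn
      rw [Finset.mem_filter] at hn
      rw [Finset.mem_range]
      have := (Nat.log_eq_zero_iff.mp hn.2)
      omega
    have h3 := Finset.card_le_card h2
    rw [Finset.card_range] at h3
    exact_mod_cast h3
  rw [h1, Finset.sum_range_succ']
  push_cast
  have h2 : ∑ j ∈ range (Nat.log 2 N), ((S.filter (fun n => Nat.log 2 n = j + 1)).card : ℝ)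
      ≤ (Nat.log 2 N : ℝ) * D := by
    refine (Finset.sum_le_sum hblock).trans ?_
    rw [Finset.sum_const, Finset.card_range, nsmul_eq_mul]
  have h3 : (Nat.log 2 N : ℝ) * Real.log 2 ≤ Real.log N := by
    have h4 : (2 : ℝ) ^ Nat.log 2 N ≤ N := by
      exact_mod_cast Nat.pow_log_le_self 2 (by omega)
    have h5 := Real.log_le_log (by positivity) h4
    rwa [Real.log_pow] at h5
  have h6 : Real.log 2 ≤ Real.log N :=
    Real.log_le_log (by norm_num) (by exact_mod_cast hN)
  have h7 : (Nat.log 2 N : ℝ) ≤ 1.45 * Real.log N := by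
    have h8 : (Nat.log 2 N : ℝ) * 0.6931471803 ≤ (Nat.log 2 N : ℝ) * Real.log 2 :=
      mul_le_mul_of_nonneg_left hl2.le (Nat.cast_nonneg _)
    linarith
  have h9 : (Nat.log 2 N : ℝ) * D ≤ 1.45 * Real.log N * D :=
    mul_le_mul_of_nonneg_right h7 (by linarith)
  have h10 : Real.log N * 1 ≤ Real.log N * D := mul_le_mul_of_nonneg_left hD (by linarith)
  nlinarith

end Pool.Agent.Work.MP_86ed72_nt.LS
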