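import Mathlib

/-!
# Elementary facts on factorials
-/

namespace Pool.Agent.Work.MP_86ed72_nt.LS

open Finset

theorem log_factorial_sum (N : ℕ) :
    Real.log (N.factorial) = ∑ p ∈ (N.factorial).primeFactors,
      ((N.factorial).factorization p : ℝ) * Real.log p := by
  rw [Real.log_nat_eq_sum_factorization]
  rfl

theorem log_two_le (N : ℕ) (hN : 64 ≤ N) : 8 * Nat.log 2 N ≤ N := by
  have h1 : 2 ^ Nat.log 2 N ≤ N := Nat.pow_log_le_self 2 (by omega)
  have h2 : 6 ≤ Nat.log 2 N := Nat.le_log_of_pow_le (by norm_num) (by omega)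
  have h3 : ∀ k : ℕ, 6 ≤ k → 8 * k ≤ 2 ^ k := by
    intro k hk
    induction k, hk using Nat.le_induction with
    | base => norm_num
    | succ k hk ih => rw [pow_succ]; omega
  exact (h3 _ h2).trans h1

theorem two_val (N : ℕ) (hN : 64 ≤ N) :
    N ≤ (N.factorial).factorization 2 + 1 + Nat.log 2 N := by
  have : Fact (Nat.Prime 2) := ⟨Nat.prime_two⟩
  have h1 := sub_one_mul_padicValNat_factorial (p := 2) N
  rw [Nat.factorization_def _ Nat.prime_two]
  have h2 : (Nat.digits 2 N).sum ≤ (Nat.digits 2 N).length * 1 := by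
    apply List.sum_le_card_nsmul
    intro d hd
    have := Nat.digits_lt_base (by norm_num) hd
    omega
  have h3 : (Nat.digits 2 N).length = Nat.log 2 N + 1 := by
    rw [Nat.length_digits 2 N (by norm_num) (by omega)]
  omega

theorem factorial_upper (N a n : ℕ) (h1 : N ≤ n) (h2 : n ≤ N + a) :
    n.factorial ≤ N.factorial * (N + a) ^ a := by
  have h3 : ∀ j : ℕ, j ≤ a → (N + j).factorial ≤ N.factorial * (N + a) ^ j := by
    intro j hj
    induction j with
    | zero => simp
    | succ j ih =>
      have h4 := ih (by omega)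
      calc (N + (j + 1)).factorial = (N + j + 1) * (N + j).factorial := by
            rw [← add_assoc, Nat.factorial_succ]
        _ ≤ (N + a) * (N.factorial * (N + a) ^ j) := Nat.mul_le_mul (by omega) h4
        _ = N.factorial * (N + a) ^ (j + 1) := by ring
  obtain ⟨j, rfl⟩ := Nat.exists_eq_add_of_le h1
  refine (h3 j (by omega)).trans ?_
  apply Nat.mul_le_mul_left
  rcases Nat.eq_zero_or_pos (N + a) with h | h
  · have : a = 0 := by omega
    have hj : j = 0 := by omega
    subst hj; subst this; simp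
  · exact Nat.pow_le_pow_right h (by omega)

theorem log_factorial_upper (N a n : ℕ) (hN : 1 ≤ N) (h1 : N ≤ n) (h2 : n ≤ N + a)
    (ha : a ≤ N) :
    Real.log n.factorial ≤ Real.log N.factorial + a * Real.log (2 * N) := by
  have h3 := factorial_upper N a n h1 h2
  have h4 : (n.factorial : ℝ) ≤ (N.factorial : ℝ) * (2 * N) ^ a := by
    have h5 : N.factorial * (N + a) ^ a ≤ N.factorial * (2 * N) ^ a :=
      Nat.mul_le_mul_left _ (Nat.pow_le_pow_left (by omega) a)
    exact_mod_cast h3.trans h5
  have hN' : (0 : ℝ) < N := by exact_mod_cast hN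
  have h6 : (0 : ℝ) < N.factorial := by exact_mod_cast N.factorial_pos
  have h7 : (0 : ℝ) < n.factorial := by exact_mod_cast n.factorial_pos
  calc Real.log n.factorial ≤ Real.log ((N.factorial : ℝ) * (2 * N) ^ a) :=
        Real.log_le_log h7 h4
    _ = Real.log N.factorial + a * Real.log (2 * N) := by
        rw [Real.log_mul h6.ne' (by positivity), Real.log_pow]

theorem log_factorial_le (N : ℕ) (hN : 1 ≤ N) :
    Real.log N.factorial ≤ N * Real.log N := by
  have h1 : N.factorial ≤ N ^ N := Nat.factorial_le_pow N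
  have h6 : (0 : ℝ) < N.factorial := by exact_mod_cast N.factorial_pos
  calc Real.log N.factorial ≤ Real.log ((N : ℝ) ^ N) :=
        Real.log_le_log h6 (by exact_mod_cast h1)
    _ = N * Real.log N := Real.log_pow _ _

/-- A prime power dividing a product of two factors, not both divisible by the prime. -/
theorem pow_dvd_or (p : ℤ) (hp : Prime p) (v : ℕ) (a b : ℤ) (h : p ^ v ∣ a * b)
    (hab : ¬ (p ∣ a ∧ p ∣ b)) : p ^ v ∣ a ∨ p ^ v ∣ b := by
  by_cases ha : p ∣ a
  · left
    have hb : ¬ p ∣ b := fun hb => hab ⟨ha, hb⟩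
    rw [mul_comm] at h
    exact hp.pow_dvd_of_dvd_mul_left v hb h
  · right
    exact hp.pow_dvd_of_dvd_mul_left v ha h

end Pool.Agent.Work.MP_86ed72_nt.LS
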