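import Pool.Agent.Work.MP_86ed72_nt.LS.K5

/-!
# The exponent five in short intervals, all `N ≥ 64`
-/

namespace Pool.Agent.Work.MP_86ed72_nt.LS

open Finset

/-- The power of two dividing `x (x - 1) (x + 1) (x ^ 2 + 1)`. -/
theorem two_pow_dvd5 (v : ℕ) (x : ℤ)
    (h : (2 : ℤ) ^ (v + 2) ∣ (x * ((x - 1) * (x + 1))) * (x ^ 2 + 1)) :
    (2 : ℤ) ^ v ∣ x ∨ (2 : ℤ) ^ v ∣ x - 1 ∨ (2 : ℤ) ^ v ∣ x + 1 := by
  have h2 : Prime (2 : ℤ) := Int.prime_two
  apply two_pow_dvd
  rcases Int.emod_two_eq_zero_or_one x with hx | hx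
  · obtain ⟨k, hk⟩ : (2 : ℤ) ∣ x := Int.dvd_of_emod_eq_zero hx
    have h3 : ¬ (2 : ℤ) ∣ x ^ 2 + 1 := by
      rw [hk, show (2 * k) ^ 2 + 1 = 2 * (2 * k ^ 2) + 1 by ring]
      omega
    rw [mul_comm] at h
    have h4 := h2.pow_dvd_of_dvd_mul_left (v + 2) h3 h
    exact (pow_dvd_pow 2 (by omega)).trans h4
  · obtain ⟨k, hk⟩ : ∃ k, x = 2 * k + 1 := ⟨x / 2, by omega⟩
    have e1 : x ^ 2 + 1 = 2 * (2 * (k ^ 2 + k) + 1) := by rw [hk]; ring
    have h3 : ¬ (2 : ℤ) ∣ 2 * (k ^ 2 + k) + 1 := by omega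
    rw [e1] at h
    have e2 : x * ((x - 1) * (x + 1)) * (2 * (2 * (k ^ 2 + k) + 1))
        = 2 * ((2 * (k ^ 2 + k) + 1) * (x * ((x - 1) * (x + 1)))) := by ring
    rw [e2, show v + 2 = (v + 1) + 1 by ring, pow_succ, mul_comm (2 ^ (v + 1)) 2] at h
    have h4 : (2 : ℤ) ^ (v + 1) ∣ (2 * (k ^ 2 + k) + 1) * (x * ((x - 1) * (x + 1))) :=
      (mul_dvd_mul_iff_left (by norm_num)).mp h
    exact h2.pow_dvd_of_dvd_mul_left (v + 1) h3 h4

/-- The number of solutions in one class modulo the power of two. -/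
theorem class_bound5 (N : ℕ) (hN : 64 ≤ N) (X : Finset ℕ) (ρ : ℝ) (hρ0 : 0 ≤ ρ)
    (hρ : ρ ≤ N / 2)
    (hX : ∀ x ∈ X, (N.factorial : ℤ) ∣
      ((x : ℤ) * (((x : ℤ) - 1) * (x + 1))) * ((x : ℤ) ^ 2 + 1))
    (hB : ∀ x ∈ X, (x : ℝ) ≤ Real.exp ((Real.log 2 + (Real.log N.factorial + ρ)) / 5))
    (h2 : ∀ x ∈ X, ∀ y ∈ X, (2 : ℤ) ^ ((N.factorial).factorization 2 - 2) ∣ (x : ℤ) - y) :
    (X.card : ℝ) ≤ 4 * Real.log N := by
  have hNpos : (0 : ℝ) < N := by
    have : 0 < N := by omega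
    exact_mod_cast this
  have hlogN : 0 ≤ Real.log N := Real.log_natCast_nonneg N
  rcases Nat.eq_zero_or_pos X.card with h0 | h0
  · rw [h0]; push_cast; positivity
  set M : ℝ := (X.card : ℝ) with hM
  have hM1 : 1 ≤ M := by rw [hM]; exact_mod_cast h0
  set v := (N.factorial).factorization with hv
  set P := (N.factorial).primeFactors with hP
  have hPp : ∀ p ∈ P, p.Prime := fun p hp => Nat.prime_of_mem_primeFactors hp
  have h2P : 2 ∈ P := by
    rw [hP, Nat.mem_primeFactors]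
    exact ⟨Nat.prime_two, Nat.dvd_factorial (by norm_num) (by omega), N.factorial_ne_zero⟩
  have hv2 := two_val N hN
  rw [← hv] at hv2
  have hlog2 := log_two_le N hN
  have hv2' : 2 ≤ v 2 := by omega
  have hmain := pair_ineq X (Real.exp ((Real.log 2 + (Real.log N.factorial + ρ)) / 5)) hB P hPp
    (fun p => if p = 2 then v 2 - 2 else v p) (fun p => if p = 2 then 1 else 5)
    (by intro p _; split_ifs <;> norm_num)
    (fun p x => if p = 2 then 0 else cls5 ((p : ℤ) ^ v p) x)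
    (by
      intro p _ x _
      split_ifs
      · norm_num
      · exact cls5_lt _ _)
    (by
      intro p hp x hx y hy
      split_ifs with h
      · intro _
        rw [h]
        exact_mod_cast h2 x hx y hy
      · intro hc
        have hdv : ∀ z ∈ X, (p : ℤ) ^ v p ∣
            ((z : ℤ) * (((z : ℤ) - 1) * (z + 1))) * ((z : ℤ) ^ 2 + 1) := by
          intro z hz
          refine dvd_trans ?_ (hX z hz)
          have : p ^ v p ∣ N.factorial := Nat.ordProj_dvd _ _
          exact_mod_cast this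
        exact cls5_dvd p (hPp p hp) h _ x y
          (odd_pow_dvd5 p (hPp p hp) h _ _ (hdv x hx))
          (odd_pow_dvd5 p (hPp p hp) h _ _ (hdv y hy)) hc)
  rw [Real.log_exp, ← hM, ← Finset.add_sum_erase P _ h2P] at hmain
  have hsum : ∑ p ∈ P.erase 2, (v p : ℝ) * Real.log p
      = Real.log N.factorial - v 2 * Real.log 2 := by
    have h3 := log_factorial_sum N
    rw [← hv, ← hP, ← Finset.add_sum_erase P _ h2P] at h3
    push_cast at h3
    linarith
  have hsum' : ∑ p ∈ P.erase 2, (((if p = 2 then v 2 - 2 else v p : ℕ) : ℝ) * Real.log p)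
      * (M ^ 2 / ((if p = 2 then 1 else 5 : ℕ) : ℝ) - M)
      = (Real.log N.factorial - v 2 * Real.log 2) * (M ^ 2 / 5 - M) := by
    rw [← hsum, Finset.sum_mul]
    apply Finset.sum_congr rfl
    intro p hp
    have h3 : p ≠ 2 := Finset.ne_of_mem_erase hp
    rw [if_neg h3, if_neg h3]
    push_cast
    ring
  rw [hsum'] at hmain
  simp only [if_true] at hmain
  rw [Nat.cast_sub hv2'] at hmain
  push_cast at hmain
  set L := Real.log N.factorial with hL
  have hl2 := Real.log_two_gt_d9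
  have hl2' := Real.log_two_lt_d9
  set l := Real.log 2 with hl
  set w : ℝ := (v 2 : ℝ) with hw
  have hkey : M * (4 * w * l - ρ - 11 * l) ≤ 4 * L := by
    have h5 : M * (M * (4 * w * l - ρ - 11 * l)) ≤ M * (4 * L) := by
      have h6 : 0 ≤ M * ρ := by positivity
      nlinarith [hmain, h6]
    exact le_of_mul_le_mul_left h5 (by linarith)
  have hLN : L ≤ N * Real.log N := by
    rw [hL]; exact log_factorial_le N (by omega)
  have hwN : (7 / 8 : ℝ) * N - 1 ≤ w := by
    have h7 : (N : ℝ) ≤ w + 1 + (Nat.log 2 N : ℝ) := by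
      rw [hw]; exact_mod_cast hv2
    have h8 : (8 : ℝ) * (Nat.log 2 N : ℝ) ≤ N := by exact_mod_cast hlog2
    linarith
  have hN64 : (64 : ℝ) ≤ N := by exact_mod_cast hN
  have h9 : (N : ℝ) ≤ 4 * w * l - ρ - 11 * l := by
    nlinarith
  have h10 : M * N ≤ 4 * (N * Real.log N) := by
    calc M * (N : ℝ) ≤ M * (4 * w * l - ρ - 11 * l) :=
          mul_le_mul_of_nonneg_left h9 (by linarith)
      _ ≤ 4 * L := hkey
      _ ≤ 4 * (N * Real.log N) := by linarith
  have h11 : N * M ≤ N * (4 * Real.log N) := by nlinarith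
  exact le_of_mul_le_mul_left h11 hNpos

/-- Short intervals, exponent five. -/
theorem short5c (N a : ℕ) (hN : 64 ≤ N) (haN : a ≤ N)
    (ha : (a : ℝ) * Real.log (2 * N) ≤ N / 2) (S : Finset ℕ)
    (hS : ∀ n ∈ S, (N ≤ n ∧ n ≤ N + a) ∧ ∃ x : ℕ, 2 ≤ x ∧ n.factorial + x = x ^ 5) :
    (S.card : ℝ) ≤ 12 * Real.log N := by
  classical
  have hex : ∀ n : ℕ, ∃ x : ℕ, n ∈ S → 2 ≤ x ∧ n.factorial + x = x ^ 5 := by
    intro n
    by_cases h : n ∈ S
    · obtain ⟨x, hx⟩ := (hS n h).2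
      exact ⟨x, fun _ => hx⟩
    · exact ⟨0, fun h' => absurd h' h⟩
  choose f hf using hex
  have hmemS : ∀ n ∈ S, N ≤ n ∧ n ≤ N + a := fun n hn => (hS n hn).1
  have hinj : Set.InjOn f S := by
    intro n hn m hm h
    rw [Finset.mem_coe] at hn hm
    have h1 := (hf n hn).2
    have h2 := (hf m hm).2
    rw [h] at h1
    have h3 : n.factorial = m.factorial := by omega
    exact (Nat.factorial_inj (by have := (hmemS n hn).1; omega)).mp h3
  set X := S.image f with hX
  have hcard : X.card = S.card := Finset.card_image_of_injOn hinj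
  have hXdiv : ∀ x ∈ X, (N.factorial : ℤ) ∣
      ((x : ℤ) * (((x : ℤ) - 1) * (x + 1))) * ((x : ℤ) ^ 2 + 1) := by
    intro x hx
    obtain ⟨n, hn, rfl⟩ := Finset.mem_image.mp hx
    have h1 := (hf n hn).2
    have h2 : ((n.factorial : ℕ) : ℤ)
        = ((f n : ℤ) * (((f n : ℤ) - 1) * (f n + 1))) * ((f n : ℤ) ^ 2 + 1) := by
      have h3 : ((n.factorial + f n : ℕ) : ℤ) = ((f n ^ 5 : ℕ) : ℤ) := by rw [h1]
      push_cast at h3
      push_cast
      linear_combination h3
    rw [← h2]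
    exact_mod_cast Nat.factorial_dvd_factorial (hmemS n hn).1
  set ρ : ℝ := (a : ℝ) * Real.log (2 * N) with hρ
  have hNpos : (0 : ℝ) < N := by
    have : 0 < N := by omega
    exact_mod_cast this
  have hρ0 : 0 ≤ ρ := by
    have h1 : 0 ≤ Real.log (2 * N) := by
      apply Real.log_nonneg
      have : (1 : ℝ) ≤ N := by exact_mod_cast (by omega : 1 ≤ N)
      linarith
    positivity
  have hXB : ∀ x ∈ X, (x : ℝ) ≤ Real.exp ((Real.log 2 + (Real.log N.factorial + ρ)) / 5) := by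
    intro x hx
    obtain ⟨n, hn, rfl⟩ := Finset.mem_image.mp hx
    obtain ⟨h1, h2⟩ := hf n hn
    have hx0 : (0 : ℝ) < f n := by exact_mod_cast (by omega : 0 < f n)
    rw [← Real.log_le_iff_le_exp hx0]
    have h3 : (f n) ^ 5 ≤ 2 * n.factorial := by
      have h4 : f n * 16 ≤ f n ^ 5 := by
        have : f n ^ 5 = f n * f n ^ 4 := by ring
        rw [this]
        apply Nat.mul_le_mul_left
        calc 16 = 2 ^ 4 := by norm_num
          _ ≤ f n ^ 4 := Nat.pow_le_pow_left h1 4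
      omega
    have h4 : ((f n : ℝ)) ^ 5 ≤ 2 * n.factorial := by exact_mod_cast h3
    have h5 := Real.log_le_log (by positivity) h4
    have h6 : (0 : ℝ) < n.factorial := by exact_mod_cast n.factorial_pos
    rw [Real.log_pow, Real.log_mul (by norm_num) h6.ne'] at h5
    have h7 := log_factorial_upper N a n (by omega) (hmemS n hn).1 (hmemS n hn).2 haN
    push_cast at h5
    linarith
  set w := (N.factorial).factorization 2 - 2 with hw
  have hv2 := two_val N hN
  have hlog2 := log_two_le N hN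
  have hX2 : ∀ x ∈ X, (2 : ℤ) ^ w ∣ (x : ℤ) ∨ (2 : ℤ) ^ w ∣ (x : ℤ) - 1 ∨
      (2 : ℤ) ^ w ∣ (x : ℤ) + 1 := by
    intro x hx
    apply two_pow_dvd5
    refine dvd_trans ?_ (hXdiv x hx)
    have h1 : w + 2 = (N.factorial).factorization 2 := by omega
    rw [h1]
    have : 2 ^ (N.factorial).factorization 2 ∣ N.factorial := Nat.ordProj_dvd _ _
    exact_mod_cast this
  have hcls : ∀ j : ℕ, ((X.filter (fun x => cls ((2 : ℤ) ^ w) x = j)).card : ℝ)
      ≤ 4 * Real.log N := by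
    intro j
    apply class_bound5 N hN _ ρ hρ0 ha
    · intro x hx
      exact hXdiv x (Finset.mem_filter.mp hx).1
    · intro x hx
      exact hXB x (Finset.mem_filter.mp hx).1
    · intro x hx y hy
      rw [Finset.mem_filter] at hx hy
      exact cls_dvd _ x y (hX2 x hx.1) (hX2 y hy.1) (hx.2.trans hy.2.symm)
  have hsplit : X.card = ∑ j ∈ range 3, (X.filter (fun x => cls ((2 : ℤ) ^ w) x = j)).card := by
    apply Finset.card_eq_sum_card_fiberwise
    intro x _
    rw [Finset.mem_coe, Finset.mem_range]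
    exact cls_lt _ _
  rw [← hcard, hsplit, Finset.sum_range_succ, Finset.sum_range_succ, Finset.sum_range_succ,
    Finset.sum_range_zero]
  push_cast
  have h0 := hcls 0
  have h1 := hcls 1
  have h2 := hcls 2
  linarith

end Pool.Agent.Work.MP_86ed72_nt.LS
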