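import Pool.Agent.Work.MP_86ed72_nt.LS.K5

/-!
# The exponent five: at most one hundred solutions in `[N, 21 N / 20]`
-/

namespace Pool.Agent.Work.MP_86ed72_nt.LS

open Finset

theorem log_part_eq (Q : ℕ → Prop) [DecidablePred Q] (N : ℕ) :
    Real.log (part Q N) = ∑ p ∈ N.primeFactors.filter Q,
      (N.factorization p : ℝ) * Real.log p := by
  rw [Real.log_nat_eq_sum_factorization, part_factorization, Finsupp.sum_filter_index,
    Finsupp.support_filter, Nat.support_factorization]

theorem log_factorial_ge (N : ℕ) : (N : ℝ) * Real.log N - N ≤ Real.log N.factorial := by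
  rcases Nat.eq_zero_or_pos N with h0 | h0
  · subst h0; simp
  have hN : (0 : ℝ) < N := by exact_mod_cast h0
  have h1 := Real.pow_div_factorial_le_exp (N : ℝ) hN.le N
  have hf : (0 : ℝ) < N.factorial := by exact_mod_cast N.factorial_pos
  have h2 : ((N : ℝ)) ^ N ≤ Real.exp N * N.factorial := by
    rwa [div_le_iff₀ hf] at h1
  have h3 := Real.log_le_log (by positivity) h2
  rw [Real.log_pow, Real.log_mul (Real.exp_pos _).ne' hf.ne', Real.log_exp] at h3
  linarith

theorem two_val_le (N : ℕ) : (N.factorial).factorization 2 ≤ N := by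
  have : Fact (Nat.Prime 2) := ⟨Nat.prime_two⟩
  have h1 := sub_one_mul_padicValNat_factorial (p := 2) N
  rw [Nat.factorization_def _ Nat.prime_two]
  omega

theorem short5 (N : ℕ) (hN : 10 ^ 8 ≤ N) (S : Finset ℕ)
    (hS : ∀ n ∈ S, (N ≤ n ∧ n ≤ N + N / 20) ∧ ∃ x : ℕ, 2 ≤ x ∧ n.factorial + x = x ^ 5) :
    (S.card : ℝ) ≤ 100 := by
  classical
  have hex : ∀ n : ℕ, ∃ x : ℕ, n ∈ S → 2 ≤ x ∧ n.factorial + x = x ^ 5 := by
    intro n
    by_cases h : n ∈ S
    · obtain ⟨x, hx⟩ := (hS n h).2
      exact ⟨x, fun _ => hx⟩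
    · exact ⟨0, fun h' => absurd h' h⟩
  choose f hf using hex
  have hmemS : ∀ n ∈ S, N ≤ n ∧ n ≤ N + N / 20 := fun n hn => (hS n hn).1
  have hinj : Set.InjOn f S := by
    intro n hn m hm h
    rw [Finset.mem_coe] at hn hm
    have h1 := (hf n hn).2
    have h2 := (hf m hm).2
    rw [h] at h1
    have h3 : n.factorial = m.factorial := by omega
    exact (Nat.factorial_inj (by have := (hmemS n hn).1; omega)).mp h3
  set X := S.image f with hX
  have hcard : X.card = S.card := Finset.card_image_of_injOn hinj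
  have hXdiv : ∀ x ∈ X, (N.factorial : ℤ) ∣
      ((x : ℤ) * (((x : ℤ) - 1) * (x + 1))) * ((x : ℤ) ^ 2 + 1) := by
    intro x hx
    obtain ⟨n, hn, rfl⟩ := Finset.mem_image.mp hx
    have h1 := (hf n hn).2
    have h2 : ((n.factorial : ℕ) : ℤ)
        = ((f n : ℤ) * (((f n : ℤ) - 1) * (f n + 1))) * ((f n : ℤ) ^ 2 + 1) := by
      have h3 : ((n.factorial + f n : ℕ) : ℤ) = ((f n ^ 5 : ℕ) : ℤ) := by rw [h1]
      push_cast at h3
      push_cast
      linear_combination h3
    rw [← h2]
    exact_mod_cast Nat.factorial_dvd_factorial (hmemS n hn).1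
  set ρ : ℝ := ((N / 20 : ℕ) : ℝ) * Real.log (2 * N) with hρ
  have hN1 : (1 : ℝ) ≤ N := by exact_mod_cast (by omega : 1 ≤ N)
  have hNpos : (0 : ℝ) < N := by linarith
  have hXB : ∀ x ∈ X, (x : ℝ) ≤ Real.exp ((Real.log 2 + (Real.log N.factorial + ρ)) / 5) := by
    intro x hx
    obtain ⟨n, hn, rfl⟩ := Finset.mem_image.mp hx
    obtain ⟨h1, h2⟩ := hf n hn
    have hx0 : (0 : ℝ) < f n := by exact_mod_cast (by omega : 0 < f n)
    rw [← Real.log_le_iff_le_exp hx0]
    have h3 : (f n) ^ 5 ≤ 2 * n.factorial := by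
      have h4 : f n * 16 ≤ f n ^ 5 := by
        have : f n ^ 5 = f n * f n ^ 4 := by ring
        rw [this]
        apply Nat.mul_le_mul_left
        calc 16 = 2 ^ 4 := by norm_num
          _ ≤ f n ^ 4 := Nat.pow_le_pow_left h1 4
      omega
    have h4 : ((f n : ℝ)) ^ 5 ≤ 2 * n.factorial := by exact_mod_cast h3
    have h5 := Real.log_le_log (by positivity) h4
    have h6 : (0 : ℝ) < n.factorial := by exact_mod_cast n.factorial_pos
    rw [Real.log_pow, Real.log_mul (by norm_num) h6.ne'] at h5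
    have h7 := log_factorial_upper N (N / 20) n (by omega) (hmemS n hn).1 (hmemS n hn).2
      (Nat.div_le_self _ _)
    push_cast at h5
    linarith
  rw [← hcard]
  rcases Nat.eq_zero_or_pos X.card with h0 | h0
  · rw [h0]; norm_num
  set M : ℝ := (X.card : ℝ) with hM
  have hM1 : 1 ≤ M := by rw [hM]; exact_mod_cast h0
  set v := (N.factorial).factorization with hv
  set P := (N.factorial).primeFactors with hP
  have hPp : ∀ p ∈ P, p.Prime := fun p hp => Nat.prime_of_mem_primeFactors hp
  have h2P : 2 ∈ P := by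
    rw [hP, Nat.mem_primeFactors]
    exact ⟨Nat.prime_two, Nat.dvd_factorial (by norm_num) (by omega), N.factorial_ne_zero⟩
  have hdv : ∀ p ∈ P, ∀ x ∈ X, (p : ℤ) ^ v p ∣
      ((x : ℤ) * (((x : ℤ) - 1) * (x + 1))) * ((x : ℤ) ^ 2 + 1) := by
    intro p _ x hx
    refine dvd_trans ?_ (hXdiv x hx)
    have : p ^ v p ∣ N.factorial := Nat.ordProj_dvd _ _
    exact_mod_cast this
  have hmain := pair_ineq X (Real.exp ((Real.log 2 + (Real.log N.factorial + ρ)) / 5)) hXB
    (P.erase 2) (fun p hp => hPp p (Finset.mem_of_mem_erase hp))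
    (fun p => v p) (fun p => if p % 4 = 3 then 3 else 5)
    (by intro p _; split_ifs <;> norm_num)
    (fun p x => if p % 4 = 3 then cls ((p : ℤ) ^ v p) x else cls5 ((p : ℤ) ^ v p) x)
    (by
      intro p _ x _
      split_ifs
      · exact cls_lt _ _
      · exact cls5_lt _ _)
    (by
      intro p hp x hx y hy
      have hp' := Finset.mem_of_mem_erase hp
      have hp2 : p ≠ 2 := Finset.ne_of_mem_erase hp
      split_ifs with h
      · intro hc
        exact cls_dvd _ x y (pow_dvd3 p (hPp p hp') h _ _ (hdv p hp' x hx))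
          (pow_dvd3 p (hPp p hp') h _ _ (hdv p hp' y hy)) hc
      · intro hc
        exact cls5_dvd p (hPp p hp') hp2 _ x y
          (odd_pow_dvd5 p (hPp p hp') hp2 _ _ (hdv p hp' x hx))
          (odd_pow_dvd5 p (hPp p hp') hp2 _ _ (hdv p hp' y hy)) hc)
  rw [Real.log_exp, ← hM] at hmain
  set L := Real.log N.factorial with hL
  set l := Real.log 2 with hl
  have hl2 : 0.6931471803 < l := Real.log_two_gt_d9
  have hl2' : l < 0.6931471808 := Real.log_two_lt_d9
  set S3 := ∑ p ∈ (P.erase 2).filter (fun p => p % 4 = 3), (v p : ℝ) * Real.log p with hS3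
  have hsum : ∑ p ∈ P.erase 2, (v p : ℝ) * Real.log p = L - v 2 * l := by
    have h3 := log_factorial_sum N
    rw [← hv, ← hP, ← hL, ← Finset.add_sum_erase P _ h2P] at h3
    push_cast at h3
    linarith
  have hsum' : ∑ p ∈ P.erase 2, ((v p : ℝ) * Real.log p)
      * (M ^ 2 / ((if p % 4 = 3 then 3 else 5 : ℕ) : ℝ) - M)
      = (L - v 2 * l) * (M ^ 2 / 5 - M) + S3 * (2 / 15 * M ^ 2) := by
    rw [← hsum, Finset.sum_mul, hS3, Finset.sum_filter, Finset.sum_mul,
      ← Finset.sum_add_distrib]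
    apply Finset.sum_congr rfl
    intro p _
    by_cases h : p % 4 = 3
    · rw [if_pos h, if_pos h]
      push_cast
      ring
    · rw [if_neg h, if_neg h]
      push_cast
      ring
  rw [hsum'] at hmain
  have hw := two_val_le N
  rw [← hv] at hw
  have hw' : (v 2 : ℝ) ≤ N := by exact_mod_cast hw
  set w : ℝ := (v 2 : ℝ) with hww
  have hw0 : 0 ≤ w := by rw [hww]; positivity
  have hLN : L ≤ N * Real.log N := log_factorial_le N (by omega)
  have hLN' : N * Real.log N - N ≤ L := log_factorial_ge N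
  set Λ := Real.log N with hΛ
  have hΛ18 : 18 ≤ Λ := by
    have h1 : Real.log ((2 : ℝ) ^ 26) ≤ Λ := by
      apply Real.log_le_log (by positivity)
      have : 2 ^ 26 ≤ N := le_trans (by norm_num) hN
      exact_mod_cast this
    rw [Real.log_pow] at h1
    push_cast at h1
    linarith
  -- the part of the primes `1 mod 4`
  have hpart := log_part_le (r := 2) (e := 2) (g := 4) Nat.prime_two (by norm_num) (by norm_num)
    (b := 5) (by norm_num) (by
      intro p hp hpr
      interval_cases p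
      · norm_num
      · exact absurd hpr (by norm_num)
      · norm_num
      · norm_num
      · norm_num) (n := N) (by omega)
  rw [log_part_eq] at hpart
  have hS1 : ∑ p ∈ P.filter (fun p => p % 4 = 1), (v p : ℝ) * Real.log p ≤ l * (N * Λ) := by
    refine hpart.trans ?_
    have e1 : Real.log ((4 : ℕ) : ℝ) = 2 * l := by
      rw [hl, show ((4 : ℕ) : ℝ) = (2 : ℝ) ^ 2 by norm_num, Real.log_pow]
      push_cast
      ring
    have e2 : Real.log ((N : ℝ) / ((5 : ℕ) : ℝ)) = Λ - Real.log 5 := by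
      rw [Real.log_div hNpos.ne' (by norm_num), hΛ]
      norm_num
    have e3 : (1 : ℝ) ≤ Real.log 5 := by
      rw [Real.le_log_iff_exp_le (by norm_num)]
      have := Real.exp_one_lt_d9
      linarith
    rw [e1, e2]
    have e4 : (2 * l + Real.log ((2 : ℕ) : ℝ) / (((2 : ℕ) : ℝ) - 1)) / (((4 : ℕ) : ℝ) - 1) = l := by
      push_cast
      rw [← hl]
      ring
    rw [e4]
    apply mul_le_mul_of_nonneg_left _ (by linarith)
    apply mul_le_mul_of_nonneg_left _ hNpos.le
    linarith
  have hS3' : (L - w * l) - l * (N * Λ) ≤ S3 := by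
    have h3 : ∑ p ∈ P.erase 2, (v p : ℝ) * Real.log p
        = S3 + ∑ p ∈ (P.erase 2).filter (fun p => ¬ p % 4 = 3), (v p : ℝ) * Real.log p := by
      rw [hS3]
      exact (Finset.sum_filter_add_sum_filter_not _ _ _).symm
    have h4 : ∑ p ∈ (P.erase 2).filter (fun p => ¬ p % 4 = 3), (v p : ℝ) * Real.log p
        ≤ ∑ p ∈ P.filter (fun p => p % 4 = 1), (v p : ℝ) * Real.log p := by
      apply Finset.sum_le_sum_of_subset_of_nonneg
      · intro p hp
        rw [Finset.mem_filter, Finset.mem_erase] at hp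
        rw [Finset.mem_filter]
        refine ⟨hp.1.2, ?_⟩
        have h5 := (hPp p hp.1.2).eq_two_or_odd
        have h6 : p % 2 = 1 := by
          rcases h5 with h5 | h5
          · exact absurd h5 hp.1.1
          · exact h5
        have h7 := hp.2
        omega
      · intro p hp _
        have h5 := (hPp p (Finset.mem_filter.mp hp).1).one_le
        have : (1 : ℝ) ≤ p := by exact_mod_cast h5
        have := Real.log_nonneg this
        positivity
    rw [hsum] at h3
    linarith
  have hρ' : ρ ≤ N / 20 * (l + Λ) := by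
    rw [hρ, Real.log_mul (by norm_num) hNpos.ne']
    apply mul_le_mul_of_nonneg_right _ (by linarith)
    have : ((N / 20 : ℕ) : ℝ) ≤ (N : ℝ) / ((20 : ℕ) : ℝ) := Nat.cast_div_le
    simpa using this
  have hρ0 : 0 ≤ ρ := by
    rw [hρ, Real.log_mul (by norm_num) hNpos.ne']
    have : 0 ≤ l + Λ := by linarith
    positivity
  have hwl : w * l ≤ N * l := mul_le_mul_of_nonneg_right hw' (by linarith)
  have hwl0 : 0 ≤ w * l := mul_nonneg hw0 (by linarith)
  have hL0 : 0 ≤ L := by
    have : 0 ≤ (N : ℝ) * (Λ - 1) := mul_nonneg hNpos.le (by linarith)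
    linarith [this, hLN']
  have hkey : M * (2 / 15 * S3 - (l + ρ + w * l) / 5) ≤ L := by
    have h5 : M * (M * (2 / 15 * S3 - (l + ρ + w * l) / 5)) ≤ M * L := by
      have h6 : 0 ≤ M * (l + L + ρ) := by positivity
      have h7 : 0 ≤ M * (w * l) := by positivity
      nlinarith [hmain, h6, h7]
    exact le_of_mul_le_mul_left h5 (by linarith)
  have hNΛ : N * 18 ≤ N * Λ := mul_le_mul_of_nonneg_left hΛ18 hNpos.le
  have hN64 : (64 : ℝ) ≤ N := by
    have : 64 ≤ N := by omega
    exact_mod_cast this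
  have hlNΛ : l * (N * Λ) ≤ 0.6931471808 * (N * Λ) := by
    apply mul_le_mul_of_nonneg_right hl2'.le
    positivity
  have hNl : (N : ℝ) * l ≤ N * 0.6931471808 := mul_le_mul_of_nonneg_left hl2'.le hNpos.le
  have hρ'' : ρ ≤ N / 20 * 0.6931471808 + N * Λ / 20 := by
    have h8 : (N : ℝ) / 20 * (l + Λ) ≤ N / 20 * 0.6931471808 + N * Λ / 20 := by
      have h9 : (N : ℝ) / 20 * (l + Λ) = N / 20 * l + N * Λ / 20 := by ring
      rw [h9]
      have h10 : (N : ℝ) / 20 * l ≤ N / 20 * 0.6931471808 :=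
        mul_le_mul_of_nonneg_left hl2'.le (by positivity)
      linarith
    linarith
  have h9 : N * Λ / 100 ≤ 2 / 15 * S3 - (l + ρ + w * l) / 5 := by
    linarith
  have h10 : M * (N * Λ / 100) ≤ N * Λ :=
    (mul_le_mul_of_nonneg_left h9 (by linarith)).trans (hkey.trans hLN)
  have hpos : 0 < N * Λ := by positivity
  have h11 : (N * Λ) * M ≤ (N * Λ) * 100 := by nlinarith
  exact le_of_mul_le_mul_left h11 hpos

end Pool.Agent.Work.MP_86ed72_nt.LS
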