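import Pool.Agent.Work.MP_86ed72_nt.LS.Cover
import Pool.Agent.Work.MP_86ed72_nt.LS.K5C
import Pool.Agent.Work.MP_86ed72_nt.LS.K5S
import Pool.Agent.Work.MP_86ed72_nt.Main

/-!
# Final counting theorems
-/

namespace Pool.Agent.Work.MP_86ed72_nt.LS

open Finset

/-- `n! + x = x ^ k` is solvable with `x ≥ 2`, `k ≥ 3`. -/
def Sol (n : ℕ) : Prop := ∃ x k : ℕ, 2 ≤ x ∧ 3 ≤ k ∧ n.factorial + x = x ^ k

/-- `n! + x = x ^ k` is solvable with `x ≥ 2`, `k ≥ 4`. -/
def Sol4 (n : ℕ) : Prop := ∃ x k : ℕ, 2 ≤ x ∧ 4 ≤ k ∧ n.factorial + x = x ^ k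

theorem sol4 {n : ℕ} (h : Sol4 n) : ∃ x : ℕ, 2 ≤ x ∧ n.factorial + x = x ^ 5 := by
  obtain ⟨x, k, hx, hk, h⟩ := h
  by_cases h5 : k = 5
  · subst h5; exact ⟨x, hx, h⟩
  · exact absurd h (main n x k hx hk h5)

theorem sol {n : ℕ} (h : Sol n) : (∃ x : ℕ, 2 ≤ x ∧ n.factorial + x = x ^ 3) ∨
    (∃ x : ℕ, 2 ≤ x ∧ n.factorial + x = x ^ 5) := by
  obtain ⟨x, k, hx, hk, h⟩ := h
  by_cases h3 : k = 3
  · subst h3; exact Or.inl ⟨x, hx, h⟩
  · exact Or.inr (sol4 ⟨x, k, hx, by omega, h⟩)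

theorem shortAll (N a : ℕ) (hN : 64 ≤ N) (haN : a ≤ N)
    (ha : (a : ℝ) * Real.log (2 * N) ≤ N / 2) (S : Finset ℕ)
    (hS : ∀ n ∈ S, (N ≤ n ∧ n ≤ N + a) ∧ Sol n) : (S.card : ℝ) ≤ 24 * Real.log N := by
  classical
  have h1 := short3 N a hN haN ha
    (S.filter (fun n => ∃ x : ℕ, 2 ≤ x ∧ n.factorial + x = x ^ 3)) (by
      intro n hn
      rw [Finset.mem_filter] at hn
      exact ⟨(hS n hn.1).1, hn.2⟩)
  have h2 := short5c N a hN haN ha
    (S.filter (fun n => ¬ ∃ x : ℕ, 2 ≤ x ∧ n.factorial + x = x ^ 3)) (by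
      intro n hn
      rw [Finset.mem_filter] at hn
      exact ⟨(hS n hn.1).1, (sol (hS n hn.1).2).resolve_left hn.2⟩)
  have h3 := Finset.card_filter_add_card_filter_not (s := S)
    (fun n => ∃ x : ℕ, 2 ≤ x ∧ n.factorial + x = x ^ 3)
  have h4 : (S.card : ℝ)
      = ((S.filter (fun n => ∃ x : ℕ, 2 ≤ x ∧ n.factorial + x = x ^ 3)).card : ℝ)
        + ((S.filter (fun n => ¬ ∃ x : ℕ, 2 ≤ x ∧ n.factorial + x = x ^ 3)).card : ℝ) := by
    exact_mod_cast h3.symm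
  rw [h4]
  linarith

/-- Trivial bound. -/
theorem card_le_trivial (E : ℕ → Prop) (N : ℕ) (S : Finset ℕ)
    (hS : ∀ n ∈ S, (N ≤ n ∧ n < 2 * N) ∧ E n) : S.card ≤ N := by
  have h1 : S ⊆ Finset.Ico N (2 * N) := by
    intro n hn
    rw [Finset.mem_Ico]
    exact (hS n hn).1
  have h2 := Finset.card_le_card h1
  rw [Nat.card_Ico] at h2
  omega

theorem dyadicAll (N : ℕ) (hN : 2 ≤ N) (S : Finset ℕ)
    (hS : ∀ n ∈ S, (N ≤ n ∧ n < 2 * N) ∧ Sol n) : (S.card : ℝ) ≤ 100 * Real.log N ^ 2 := by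
  have hl2 := Real.log_two_gt_d9
  by_cases h64 : 64 ≤ N
  · have h1 := dyadic_log Sol 24 (by norm_num) shortAll N h64 S hS
    have h2 : 0 ≤ Real.log N ^ 2 := sq_nonneg _
    linarith
  · have h1 := card_le_trivial Sol N S hS
    have h1' : (S.card : ℝ) ≤ N := by exact_mod_cast h1
    by_cases h32 : 32 ≤ N
    · have h3 : Real.log ((2 : ℝ) ^ 5) ≤ Real.log N := by
        apply Real.log_le_log (by norm_num)
        rw [show (2 : ℝ) ^ 5 = ((32 : ℕ) : ℝ) by norm_num]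
        exact_mod_cast h32
      rw [Real.log_pow] at h3
      push_cast at h3
      have h4 : (N : ℝ) ≤ 64 := by exact_mod_cast (by omega : N ≤ 64)
      nlinarith
    · have h3 : Real.log 2 ≤ Real.log N :=
        Real.log_le_log (by norm_num) (by exact_mod_cast hN)
      have h4 : (N : ℝ) ≤ 32 := by exact_mod_cast (by omega : N ≤ 32)
      nlinarith

theorem cumAll (N : ℕ) (hN : 2 ≤ N) (S : Finset ℕ)
    (hS : ∀ n ∈ S, n ≤ N ∧ Sol n) : (S.card : ℝ) ≤ 450 * Real.log N ^ 3 := by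
  have hl2 := Real.log_two_gt_d9
  have h3 : Real.log 2 ≤ Real.log N :=
    Real.log_le_log (by norm_num) (by exact_mod_cast hN)
  have h1 := cumulative Sol (100 * Real.log N ^ 2) N hN (by nlinarith) (by
    intro N' h1 h2 T hT
    refine (dyadicAll N' h1 T hT).trans ?_
    have h4 : Real.log N' ≤ Real.log N :=
      Real.log_le_log (by exact_mod_cast (by omega : 0 < N')) (by exact_mod_cast h2)
    have h5 : 0 ≤ Real.log N' := Real.log_natCast_nonneg N'
    have h6 : Real.log N' ^ 2 ≤ Real.log N ^ 2 := pow_le_pow_left₀ h5 h4 2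
    linarith) S hS
  refine h1.trans (le_of_eq ?_)
  ring

theorem dyadic5 (N : ℕ) (hN : 2 ≤ N) (S : Finset ℕ)
    (hS : ∀ n ∈ S, (N ≤ n ∧ n < 2 * N) ∧ Sol4 n) : (S.card : ℝ) ≤ 15000 := by
  by_cases h8 : 10 ^ 8 ≤ N
  · have h1 := cover Sol4 N (N / 20) 20 100 (by omega) (by omega) (by
      intro N' h1 h2 T hT
      apply short5 N' (by omega) T
      intro n hn
      have h3 := (hT n hn).1
      exact ⟨⟨h3.1, by omega⟩, sol4 (hT n hn).2⟩) S hS
    push_cast at h1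
    linarith
  · by_cases h64 : 64 ≤ N
    · have h1 := dyadic_log Sol4 12 (by norm_num) (by
        intro N a h1 h2 h3 T hT
        exact short5c N a h1 h2 h3 T (fun n hn => ⟨(hT n hn).1, sol4 (hT n hn).2⟩)) N h64 S hS
      have h2 : Real.log N ≤ 18.5 := by
        have h3 : (N : ℝ) ≤ 2 ^ 27 * (3 / 4) := by
          have : N ≤ 10 ^ 8 := by omega
          have h4 : (N : ℝ) ≤ 10 ^ 8 := by exact_mod_cast this
          refine h4.trans (by norm_num)
        have h4 : Real.log N ≤ Real.log ((2 : ℝ) ^ 27 * (3 / 4)) :=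
          Real.log_le_log (by exact_mod_cast (by omega : 0 < N)) h3
        rw [Real.log_mul (by positivity) (by norm_num), Real.log_pow] at h4
        have h5 : Real.log (3 / 4) ≤ 3 / 4 - 1 := Real.log_le_sub_one_of_pos (by norm_num)
        have h6 := Real.log_two_lt_d9
        push_cast at h4
        linarith
      have h3 : 0 ≤ Real.log N := Real.log_natCast_nonneg N
      nlinarith
    · have h1 := card_le_trivial Sol4 N S hS
      have h2 : S.card ≤ 64 := by omega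
      have h3 : (S.card : ℝ) ≤ 64 := by exact_mod_cast h2
      linarith

theorem cum5 (N : ℕ) (hN : 2 ≤ N) (S : Finset ℕ)
    (hS : ∀ n ∈ S, n ≤ N ∧ Sol4 n) : (S.card : ℝ) ≤ 67500 * Real.log N := by
  have h1 := cumulative Sol4 15000 N hN (by norm_num) (by
    intro N' h1 h2 T hT
    exact dyadic5 N' h1 T hT) S hS
  refine h1.trans (le_of_eq ?_)
  ring

/-- `ncard` version. -/
theorem ncard_le (T : Set ℕ) (b : ℕ) (hb : ∀ n ∈ T, n ≤ b) (c : ℝ)
    (h : ∀ S : Finset ℕ, (∀ n ∈ S, n ∈ T) → (S.card : ℝ) ≤ c) : (T.ncard : ℝ) ≤ c := by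
  have hfin : T.Finite := (Set.finite_Iic b).subset (fun n hn => hb n hn)
  have h1 := h hfin.toFinset (fun n hn => by simpa using hn)
  rw [Set.ncard_eq_toFinset_card T hfin]
  exact h1

end Pool.Agent.Work.MP_86ed72_nt.LS
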