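import Pool.Agent.Work.MP_86ed72_nt.LS.K3
import Pool.Agent.Work.MP_86ed72_nt.Cheb

/-!
# The exponent five in intervals `[N, 21 N / 20]`
-/

namespace Pool.Agent.Work.MP_86ed72_nt.LS

open Finset

open Classical in
/-- A reference square root of `-1` modulo `m`. -/
noncomputable def zr (m : ℤ) : ℤ := if h : ∃ z : ℤ, m ∣ z ^ 2 + 1 then h.choose else 0

theorem zr_dvd (m z : ℤ) (h : m ∣ z ^ 2 + 1) : m ∣ (zr m) ^ 2 + 1 := by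
  unfold zr
  have h' : ∃ z : ℤ, m ∣ z ^ 2 + 1 := ⟨z, h⟩
  rw [dif_pos h']
  exact h'.choose_spec

/-- The class of `x` modulo `m`, five classes. -/
noncomputable def cls5 (m : ℤ) (x : ℕ) : ℕ :=
  if m ∣ (x : ℤ) then 0 else if m ∣ (x : ℤ) - 1 then 1 else if m ∣ (x : ℤ) + 1 then 2 else
    if m ∣ (x : ℤ) - zr m then 3 else 4

theorem cls5_lt (m : ℤ) (x : ℕ) : cls5 m x < 5 := by
  unfold cls5
  split_ifs <;> norm_num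

/-- Two square roots of `-1` modulo an odd prime power. -/
theorem roots_pm (p : ℕ) (hp : p.Prime) (hp2 : p ≠ 2) (v : ℕ) (x y : ℤ)
    (hx : (p : ℤ) ^ v ∣ x ^ 2 + 1) (hy : (p : ℤ) ^ v ∣ y ^ 2 + 1) :
    (p : ℤ) ^ v ∣ x - y ∨ (p : ℤ) ^ v ∣ x + y := by
  rcases Nat.eq_zero_or_pos v with h0 | h0
  · left; rw [h0]; simp
  have hpz : Prime (p : ℤ) := Nat.prime_iff_prime_int.mp hp
  have hp2' : ¬ (p : ℤ) ∣ 2 := by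
    intro h2
    have h3 : p ∣ 2 := by exact_mod_cast h2
    exact hp2 ((Nat.prime_dvd_prime_iff_eq hp Nat.prime_two).mp h3)
  have h1 : (p : ℤ) ^ v ∣ (x - y) * (x + y) := by
    have := dvd_sub hx hy
    rwa [show x ^ 2 + 1 - (y ^ 2 + 1) = (x - y) * (x + y) by ring] at this
  apply pow_dvd_or (p : ℤ) hpz v _ _ h1
  rintro ⟨h2, h3⟩
  have h4 : (p : ℤ) ∣ 2 * x := by
    have := dvd_add h2 h3
    rwa [show x - y + (x + y) = 2 * x by ring] at this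
  have h5 : (p : ℤ) ∣ x := (hpz.dvd_or_dvd h4).resolve_left hp2'
  have h6 : (p : ℤ) ∣ x ^ 2 + 1 := (dvd_pow_self _ (by omega)).trans hx
  have h7 : (p : ℤ) ∣ x ^ 2 := dvd_pow h5 (by norm_num)
  have h8 := dvd_sub h6 h7
  rw [show x ^ 2 + 1 - x ^ 2 = 1 by ring] at h8
  exact hpz.not_dvd_one h8

theorem cls5_dvd (p : ℕ) (hp : p.Prime) (hp2 : p ≠ 2) (v : ℕ) (x y : ℕ)
    (hx : (p : ℤ) ^ v ∣ (x : ℤ) ∨ (p : ℤ) ^ v ∣ (x : ℤ) - 1 ∨ (p : ℤ) ^ v ∣ (x : ℤ) + 1 ∨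
      (p : ℤ) ^ v ∣ (x : ℤ) ^ 2 + 1)
    (hy : (p : ℤ) ^ v ∣ (y : ℤ) ∨ (p : ℤ) ^ v ∣ (y : ℤ) - 1 ∨ (p : ℤ) ^ v ∣ (y : ℤ) + 1 ∨
      (p : ℤ) ^ v ∣ (y : ℤ) ^ 2 + 1)
    (h : cls5 ((p : ℤ) ^ v) x = cls5 ((p : ℤ) ^ v) y) : (p : ℤ) ^ v ∣ (x : ℤ) - y := by
  have key : ∀ z : ℕ, ((p : ℤ) ^ v ∣ (z : ℤ) ∨ (p : ℤ) ^ v ∣ (z : ℤ) - 1 ∨
      (p : ℤ) ^ v ∣ (z : ℤ) + 1 ∨ (p : ℤ) ^ v ∣ (z : ℤ) ^ 2 + 1) →
      (cls5 ((p : ℤ) ^ v) z = 0 ∧ (p : ℤ) ^ v ∣ (z : ℤ)) ∨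
      (cls5 ((p : ℤ) ^ v) z = 1 ∧ (p : ℤ) ^ v ∣ (z : ℤ) - 1) ∨
      (cls5 ((p : ℤ) ^ v) z = 2 ∧ (p : ℤ) ^ v ∣ (z : ℤ) + 1) ∨
      (cls5 ((p : ℤ) ^ v) z = 3 ∧ (p : ℤ) ^ v ∣ (z : ℤ) - zr ((p : ℤ) ^ v)) ∨
      (cls5 ((p : ℤ) ^ v) z = 4 ∧ (p : ℤ) ^ v ∣ (z : ℤ) + zr ((p : ℤ) ^ v)) := by
    intro z hz
    unfold cls5
    by_cases h1 : (p : ℤ) ^ v ∣ (z : ℤ)
    · left; exact ⟨by rw [if_pos h1], h1⟩
    right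
    by_cases h2 : (p : ℤ) ^ v ∣ (z : ℤ) - 1
    · left; exact ⟨by rw [if_neg h1, if_pos h2], h2⟩
    right
    by_cases h3 : (p : ℤ) ^ v ∣ (z : ℤ) + 1
    · left; exact ⟨by rw [if_neg h1, if_neg h2, if_pos h3], h3⟩
    right
    by_cases h4 : (p : ℤ) ^ v ∣ (z : ℤ) - zr ((p : ℤ) ^ v)
    · left; exact ⟨by rw [if_neg h1, if_neg h2, if_neg h3, if_pos h4], h4⟩
    right
    refine ⟨by rw [if_neg h1, if_neg h2, if_neg h3, if_neg h4], ?_⟩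
    have h5 : (p : ℤ) ^ v ∣ (z : ℤ) ^ 2 + 1 := by tauto
    exact (roots_pm p hp hp2 v z _ h5 (zr_dvd _ _ h5)).resolve_left h4
  rcases key x hx with ⟨a, ha⟩ | ⟨a, ha⟩ | ⟨a, ha⟩ | ⟨a, ha⟩ | ⟨a, ha⟩ <;>
  rcases key y hy with ⟨b, hb⟩ | ⟨b, hb⟩ | ⟨b, hb⟩ | ⟨b, hb⟩ | ⟨b, hb⟩ <;>
  first
    | (exfalso; rw [a, b] at h; omega)
    | (have h9 := dvd_sub ha hb
       ring_nf at h9 ⊢
       exact h9)

/-- Odd prime powers dividing `x (x - 1) (x + 1) (x ^ 2 + 1)`. -/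
theorem odd_pow_dvd5 (p : ℕ) (hp : p.Prime) (hp2 : p ≠ 2) (v : ℕ) (x : ℤ)
    (h : (p : ℤ) ^ v ∣ (x * ((x - 1) * (x + 1))) * (x ^ 2 + 1)) :
    (p : ℤ) ^ v ∣ x ∨ (p : ℤ) ^ v ∣ x - 1 ∨ (p : ℤ) ^ v ∣ x + 1 ∨ (p : ℤ) ^ v ∣ x ^ 2 + 1 := by
  have hpz : Prime (p : ℤ) := Nat.prime_iff_prime_int.mp hp
  have hp1 : ¬ (p : ℤ) ∣ 1 := hpz.not_dvd_one
  have hp2' : ¬ (p : ℤ) ∣ 2 := by
    intro h2
    have h3 : p ∣ 2 := by exact_mod_cast h2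
    exact hp2 ((Nat.prime_dvd_prime_iff_eq hp Nat.prime_two).mp h3)
  rcases pow_dvd_or p hpz v _ _ h (by
    rintro ⟨h1, h2⟩
    rcases hpz.dvd_or_dvd h1 with h3 | h3
    · have := dvd_sub h2 (dvd_pow h3 (two_ne_zero))
      rw [show x ^ 2 + 1 - x ^ 2 = 1 by ring] at this
      exact hp1 this
    · have h4 : (p : ℤ) ∣ (x ^ 2 + 1) - (x - 1) * (x + 1) := dvd_sub h2 h3
      rw [show (x ^ 2 + 1) - (x - 1) * (x + 1) = 2 by ring] at h4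
      exact hp2' h4) with h1 | h1
  · rcases odd_pow_dvd p hp hp2 v x h1 with h2 | h2 | h2
    · exact Or.inl h2
    · exact Or.inr (Or.inl h2)
    · exact Or.inr (Or.inr (Or.inl h2))
  · exact Or.inr (Or.inr (Or.inr h1))

/-- Primes `3 mod 4` do not divide `x ^ 2 + 1`. -/
theorem pow_dvd3 (p : ℕ) (hp : p.Prime) (hp3 : p % 4 = 3) (v : ℕ) (x : ℤ)
    (h : (p : ℤ) ^ v ∣ (x * ((x - 1) * (x + 1))) * (x ^ 2 + 1)) :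
    (p : ℤ) ^ v ∣ x ∨ (p : ℤ) ^ v ∣ x - 1 ∨ (p : ℤ) ^ v ∣ x + 1 := by
  have hpz : Prime (p : ℤ) := Nat.prime_iff_prime_int.mp hp
  have hp2 : p ≠ 2 := by intro h; rw [h] at hp3; norm_num at hp3
  apply odd_pow_dvd p hp hp2 v x
  have hnd : ¬ (p : ℤ) ∣ x ^ 2 + 1 := by
    intro h1
    have := Fact.mk hp
    have h2 : ((x ^ 2 + 1 : ℤ) : ZMod p) = 0 := (ZMod.intCast_zmod_eq_zero_iff_dvd _ _).mpr h1
    push_cast at h2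
    have h3 : (x : ZMod p) ^ 2 = -1 := by linear_combination h2
    exact ZMod.mod_four_ne_three_of_sq_eq_neg_one h3 hp3
  rw [mul_comm] at h
  exact hpz.pow_dvd_of_dvd_mul_left v hnd h

end Pool.Agent.Work.MP_86ed72_nt.LS
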