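import Mathlib

/-!
# The pair inequality (larger sieve)

If the elements of a finite set `X` of natural numbers `≤ B` lie in at most `u p` classes modulo
`p ^ v p` for the primes `p ∈ P`, then a weighted count of the pairs in the same class is at most
the sum of the logarithms of the differences.
-/

namespace Pool.Agent.Work.MP_86ed72_nt.LS

open Finset

/-- The number of ordered pairs in the same class is at least `M² / u`. -/
theorem same_class (X : Finset ℕ) (u : ℕ) (c : ℕ → ℕ) (hc : ∀ x ∈ X, c x < u) :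
    (X.card : ℝ) ^ 2 ≤ u * (((X ×ˢ X).filter (fun z => c z.1 = c z.2)).card : ℝ) := by
  have h1 : X.card = ∑ j ∈ range u, (X.filter (fun x => c x = j)).card := by
    apply Finset.card_eq_sum_card_fiberwise
    intro x hx
    rw [Finset.mem_coe, Finset.mem_range]
    exact hc x hx
  have h2 : ((X ×ˢ X).filter (fun z => c z.1 = c z.2)).card
      = ∑ j ∈ range u, ((X.filter (fun x => c x = j)).card) ^ 2 := by
    rw [Finset.card_eq_sum_card_fiberwise (f := fun z : ℕ × ℕ => c z.1) (t := range u)]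
    · apply Finset.sum_congr rfl
      intro j _
      rw [sq, ← Finset.card_product]
      congr 1
      ext z
      simp only [Finset.mem_filter, Finset.mem_product]
      constructor
      · rintro ⟨⟨⟨h1, h2⟩, h3⟩, h4⟩
        exact ⟨⟨h1, h4⟩, ⟨h2, by rw [← h3, h4]⟩⟩
      · rintro ⟨⟨h1, h2⟩, ⟨h3, h4⟩⟩
        exact ⟨⟨⟨h1, h3⟩, by rw [h2, h4]⟩, h2⟩
    · intro z hz
      rw [Finset.mem_coe, Finset.mem_filter, Finset.mem_product] at hz
      rw [Finset.mem_coe, Finset.mem_range]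
      exact hc _ hz.1.1
  rw [h2, h1]
  push_cast
  have h3 := sq_sum_le_card_mul_sum_sq (s := range u)
    (f := fun j => ((X.filter (fun x => c x = j)).card : ℝ))
  rw [Finset.card_range] at h3
  exact h3

/-- Two different elements: the primes at which they agree. -/
theorem pair_log (P : Finset ℕ) (hP : ∀ p ∈ P, p.Prime) (v : ℕ → ℕ) (c : ℕ → ℕ → ℕ)
    (x y : ℕ) (hxy : x ≠ y) (hd : ∀ p ∈ P, c p x = c p y → ((p : ℤ) ^ v p) ∣ (x : ℤ) - y)
    (B : ℝ) (hx : (x : ℝ) ≤ B) (hy : (y : ℝ) ≤ B) :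
    ∑ p ∈ P, (if c p x = c p y then (v p : ℝ) * Real.log p else 0) ≤ Real.log B := by
  rw [← Finset.sum_filter]
  set P' := P.filter (fun p => c p x = c p y) with hP'
  have hmem : ∀ p ∈ P', p ∈ P ∧ c p x = c p y := by
    intro p hp
    rw [hP', Finset.mem_filter] at hp
    exact hp
  have h1 : (∏ p ∈ P', ((p : ℤ) ^ v p)) ∣ (x : ℤ) - y := by
    apply Finset.prod_dvd_of_coprime
    · intro p hp q hq hpq
      rw [Finset.mem_coe] at hp hq
      have h2 : Nat.Coprime p q :=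
        (Nat.coprime_primes (hP p (hmem p hp).1) (hP q (hmem q hq).1)).mpr hpq
      have h3 : IsCoprime (p : ℤ) (q : ℤ) := Nat.isCoprime_iff_coprime.mpr h2
      exact IsCoprime.pow h3
    · intro p hp
      exact hd p (hmem p hp).1 (hmem p hp).2
  have hne : (x : ℤ) - y ≠ 0 := by
    intro h
    apply hxy
    have : (x : ℤ) = y := by linarith
    exact_mod_cast this
  have h2 : (∏ p ∈ P', ((p : ℤ) ^ v p)) ≤ |(x : ℤ) - y| :=
    Int.le_of_dvd (abs_pos.mpr hne) ((dvd_abs _ _).mpr h1)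
  have hpos : ∀ p ∈ P', (0 : ℝ) < (p : ℝ) ^ v p := by
    intro p hp
    have := (hP p (hmem p hp).1).pos
    positivity
  have h3 : ∑ p ∈ P', (v p : ℝ) * Real.log p = Real.log (∏ p ∈ P', (p : ℝ) ^ v p) := by
    rw [Real.log_prod (fun p hp => (hpos p hp).ne')]
    apply Finset.sum_congr rfl
    intro p _
    rw [Real.log_pow]
  rw [h3]
  apply Real.log_le_log (Finset.prod_pos hpos)
  have h4 : ((∏ p ∈ P', ((p : ℤ) ^ v p) : ℤ) : ℝ) ≤ |(x : ℝ) - y| := by
    have : ((∏ p ∈ P', ((p : ℤ) ^ v p) : ℤ) : ℝ) ≤ ((|(x : ℤ) - y| : ℤ) : ℝ) := by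
      exact_mod_cast h2
    push_cast at this
    push_cast
    exact this
  push_cast at h4
  refine h4.trans ?_
  rw [abs_le]
  have hx0 : (0 : ℝ) ≤ x := Nat.cast_nonneg x
  have hy0 : (0 : ℝ) ≤ y := Nat.cast_nonneg y
  constructor <;> linarith

/-- The pair inequality. -/
theorem pair_ineq (X : Finset ℕ) (B : ℝ) (hB : ∀ x ∈ X, (x : ℝ) ≤ B)
    (P : Finset ℕ) (hP : ∀ p ∈ P, p.Prime) (v u : ℕ → ℕ) (hu : ∀ p ∈ P, 0 < u p)
    (c : ℕ → ℕ → ℕ) (hc : ∀ p ∈ P, ∀ x ∈ X, c p x < u p)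
    (hd : ∀ p ∈ P, ∀ x ∈ X, ∀ y ∈ X, c p x = c p y → ((p : ℤ) ^ v p) ∣ (x : ℤ) - y) :
    ∑ p ∈ P, ((v p : ℝ) * Real.log p) * ((X.card : ℝ) ^ 2 / u p - X.card)
      ≤ ((X.card : ℝ) ^ 2 - X.card) * Real.log B := by
  have h1 : ∑ z ∈ X.offDiag, ∑ p ∈ P,
      (if c p z.1 = c p z.2 then (v p : ℝ) * Real.log p else 0)
      ≤ ∑ z ∈ X.offDiag, Real.log B := by
    apply Finset.sum_le_sum
    intro z hz
    rw [Finset.mem_offDiag] at hz
    exact pair_log P hP v c z.1 z.2 hz.2.2 (fun p hp => hd p hp z.1 hz.1 z.2 hz.2.1) B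
      (hB _ hz.1) (hB _ hz.2.1)
  rw [Finset.sum_const, Finset.offDiag_card, nsmul_eq_mul, Finset.sum_comm] at h1
  have h2 : ((X.card * X.card - X.card : ℕ) : ℝ) = (X.card : ℝ) ^ 2 - X.card := by
    rw [Nat.cast_sub (Nat.le_mul_self _)]
    push_cast
    ring
  rw [h2] at h1
  refine le_trans ?_ h1
  apply Finset.sum_le_sum
  intro p hp
  have hlog : 0 ≤ (v p : ℝ) * Real.log p := by
    have : (1 : ℝ) ≤ p := by exact_mod_cast (hP p hp).one_le
    have := Real.log_nonneg this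
    positivity
  rw [← Finset.sum_filter, Finset.sum_const, nsmul_eq_mul, mul_comm _ ((v p : ℝ) * Real.log p)]
  apply mul_le_mul_of_nonneg_left _ hlog
  have h3 := same_class X (u p) (c p) (hc p hp)
  have h4 : ((X ×ˢ X).filter (fun z => c p z.1 = c p z.2)).card
      = (X.offDiag.filter (fun z => c p z.1 = c p z.2)).card + X.card := by
    have h5 : (X ×ˢ X).filter (fun z => c p z.1 = c p z.2)
        = (X.offDiag.filter (fun z => c p z.1 = c p z.2)) ∪ X.diag := by
      ext z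
      simp only [Finset.mem_filter, Finset.mem_product, Finset.mem_union, Finset.mem_offDiag,
        Finset.mem_diag]
      constructor
      · rintro ⟨⟨h1, h2⟩, h3⟩
        by_cases h : z.1 = z.2
        · exact Or.inr ⟨h1, h⟩
        · exact Or.inl ⟨⟨h1, h2, h⟩, h3⟩
      · rintro (⟨⟨h1, h2, _⟩, h3⟩ | ⟨h1, h2⟩)
        · exact ⟨⟨h1, h2⟩, h3⟩
        · exact ⟨⟨h1, h2 ▸ h1⟩, by rw [h2]⟩
    rw [h5, Finset.card_union_of_disjoint, Finset.diag_card]
    rw [Finset.disjoint_left]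
    intro z hz hz'
    rw [Finset.mem_filter, Finset.mem_offDiag] at hz
    rw [Finset.mem_diag] at hz'
    exact hz.1.2.2 hz'.2
  rw [h4] at h3
  push_cast at h3
  have hu0 : (0 : ℝ) < u p := by exact_mod_cast hu p hp
  have h6 : (X.card : ℝ) ^ 2 / u p ≤
      ((X.offDiag.filter (fun z => c p z.1 = c p z.2)).card : ℝ) + X.card := by
    rw [div_le_iff₀ hu0]
    linarith
  linarith

end Pool.Agent.Work.MP_86ed72_nt.LS
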